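import Pool.Agent.Lib.MP_144d21_co.XU.Iface

/-!
# MP_144d21_co, project XU: deletion-contraction (CHIDC)
-/

set_option autoImplicit false

namespace Pool.Agent.Xu.H21

open Finset Polynomial

/-- CHIDC -/
theorem chidc (h1 : ColdcS) (h2 : ChiS) : ChidcS := by
  intro V _ _ G S v w hv hw hvw
  apply poly_ext
  intro q
  rw [eval_add, h2 V (del G v w) S q, h2 V G S q, h2 V (con G v w) (S.erase v) q,
    h1 V G S v w hv hw hvw q]
  push_cast
  rfl

end Pool.Agent.Xu.H21
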