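import Pool.Agent.Lib.MP_144d21_co.XU.Iface

/-!
# MP_144d21_co, project XU: number of edges and rank (RKNE, RKRED)
-/

set_option autoImplicit false

namespace Pool.Agent.Xu.H21

open Finset

variable {V : Type} [Fintype V] [DecidableEq V]

/-- the row of an edge -/
def rw2 (p : V → Fin 3 → ℝ) : Sym2 V → (V → Fin 3 → ℝ) :=
  Sym2.lift ⟨row p, row_comm p⟩

theorem rw2_mk (p : V → Fin 3 → ℝ) (u v : V) : rw2 p s(u, v) = row p u v := rfl

theorem mem_edg {G : SimpleGraph V} {S : Finset V} {u v : V} :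
    s(u, v) ∈ edg G S ↔ G.Adj u v ∧ u ∈ S ∧ v ∈ S := by
  classical
  unfold edg
  rw [mem_filter]
  simp

theorem rs_eq (p : V → Fin 3 → ℝ) (G : SimpleGraph V) (S : Finset V) :
    rs p G S = Submodule.span ℝ (rw2 p '' (edg G S : Set (Sym2 V))) := by
  unfold rs
  congr 1
  ext x
  constructor
  · rintro ⟨u, hu, v, hv, ha, rfl⟩
    exact ⟨s(u, v), mem_edg.2 ⟨ha, hu, hv⟩, rfl⟩
  · rintro ⟨e, he, rfl⟩
    induction e with
    | h u v =>
      have := mem_edg.1 he
      exact ⟨u, this.2.1, v, this.2.2, this.1, rfl⟩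

theorem rk_le_ne (p : V → Fin 3 → ℝ) (G : SimpleGraph V) (S : Finset V) :
    rk p G S ≤ ne G S := by
  classical
  unfold rk ne
  rw [rs_eq, ← coe_image]
  exact (finrank_span_finset_le_card _).trans card_image_le

theorem li_iff (p : V → Fin 3 → ℝ) (G : SimpleGraph V) (S : Finset V) :
    rk p G S = ne G S ↔ LinearIndepOn ℝ (rw2 p) (edg G S : Set (Sym2 V)) := by
  classical
  have e1 : Set.range (fun e : (edg G S : Set (Sym2 V)) => rw2 p e) =
      rw2 p '' (edg G S : Set (Sym2 V)) := by
    rw [Set.image_eq_range]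
  have h1 : LinearIndepOn ℝ (rw2 p) (edg G S : Set (Sym2 V)) ↔
      Fintype.card (edg G S : Set (Sym2 V)) =
        (Set.range fun e : (edg G S : Set (Sym2 V)) => rw2 p e).finrank ℝ :=
    linearIndependent_iff_card_eq_finrank_span
  rw [h1, e1]
  unfold rk
  rw [rs_eq]
  have e2 : Fintype.card (edg G S : Set (Sym2 V)) = ne G S := by
    unfold ne
    simp
  rw [e2]
  exact eq_comm

/-- RKNE -/
theorem rkne : RkneS := by
  intro V _ _ G G' S S' p
  refine ⟨rk_le_ne p G S, fun hS hG h => ?_⟩
  rw [li_iff] at h ⊢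
  refine h.mono ?_
  intro e he
  induction e with
  | h u v =>
    have := mem_edg.1 he
    exact mem_edg.2 ⟨hG u this.2.1 v this.2.2 this.1, hS this.2.1, hS this.2.2⟩

/-- RKRED -/
theorem rkred : RkredS := by
  intro V _ _ G S p h
  rw [Ne, li_iff] at h
  classical
  have h1 : ∃ e ∈ edg G S, rw2 p e ∈ Submodule.span ℝ (rw2 p '' ((edg G S : Set (Sym2 V)) \ {e})) := by
    by_contra hc
    push Not at hc
    apply h
    rw [linearIndepOn_iff_notMem_span]
    intro e he
    exact hc e he
  obtain ⟨e, he, hsp⟩ := h1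
  induction e with
  | h v w =>
    obtain ⟨ha, hv, hw⟩ := mem_edg.1 he
    refine ⟨v, hv, w, hw, ha, ?_⟩
    have h2 : (edg (del G v w) S : Set (Sym2 V)) = (edg G S : Set (Sym2 V)) \ {s(v, w)} := by
      ext e
      induction e with
      | h a b =>
        rw [Set.mem_sdiff, Set.mem_singleton_iff, mem_coe, mem_coe, mem_edg, mem_edg, Sym2.eq_iff]
        unfold del
        simp only
        tauto
    have h3 : rs p (del G v w) S = rs p G S := by
      rw [rs_eq, rs_eq, h2]
      apply le_antisymm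
      · exact Submodule.span_mono (Set.image_mono Set.sdiff_subset)
      · rw [Submodule.span_le]
        rintro _ ⟨e, he', rfl⟩
        by_cases hee : e = s(v, w)
        · rw [hee]; exact hsp
        · exact Submodule.subset_span ⟨e, ⟨he', hee⟩, rfl⟩
    unfold rk
    rw [h3]

end Pool.Agent.Xu.H21
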